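import Pool.Agent.Helper65.KH.Goals

/-! Project KH, packet VB: the box and the volume. -/

set_option autoImplicit false
set_option linter.unusedSectionVars false

open MvPolynomial MeasureTheory
open scoped Pointwise

namespace Pool.Agent.Helper76.KH.VB

open Pool.Agent.Helper65.KH

variable {ι : Type} [Fintype ι] [DecidableEq ι]

theorem dt_single (w : ι → ℝ) (i : ι) (m : ℕ) : dt w (cv (Pi.single i m)) = w i * m := by
  unfold dt cv
  rw [Finset.sum_eq_single i]
  · simp
  · intro j _ hj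
    simp [Pi.single_eq_of_ne hj]
  · simp

theorem LL_pos {V : Finset (ι → ℕ)} (hV : Cn V) {w : ι → ℝ} (hw : w ∈ LL V) (i : ι) : 0 < w i := by
  obtain ⟨m, hm, hmem⟩ := hV.2 i
  have h := hw _ hmem
  rw [dt_single] at h
  by_contra hle
  push Not at hle
  have : w i * (m : ℝ) ≤ 0 := mul_nonpos_of_nonpos_of_nonneg hle (Nat.cast_nonneg m)
  linarith

theorem min_mem {V : Finset (ι → ℕ)} (hV : Cn V) {w : ι → ℝ} (hw : w ∈ LL V) :
    (fun i => min (w i) 1) ∈ LL V := by
  intro v hv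
  by_cases h : ∃ j, v j ≠ 0 ∧ 1 < w j
  · obtain ⟨j, hj, hwj⟩ := h
    have h2 : min (w j) 1 * (v j : ℝ) ≤ dt (fun i => min (w i) 1) (cv v) :=
      Finset.single_le_sum (f := fun i => min (w i) 1 * (v i : ℝ))
        (fun i _ => mul_nonneg (le_min (LL_pos hV hw i).le zero_le_one) (Nat.cast_nonneg _))
        (Finset.mem_univ j)
    have h1 : (1 : ℝ) ≤ v j := by exact_mod_cast Nat.one_le_iff_ne_zero.2 hj
    rw [min_eq_right hwj.le, one_mul] at h2
    linarith
  · push Not at h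
    have h2 : dt (fun i => min (w i) 1) (cv v) = dt w (cv v) := by
      unfold dt
      refine Finset.sum_congr rfl fun i _ => ?_
      by_cases hv0 : v i = 0
      · simp [cv, hv0]
      · change min (w i) 1 * _ = _
        rw [min_eq_left (h i hv0)]
    rw [h2]
    exact hw v hv

theorem one_mem {V : Finset (ι → ℕ)} (hV : Cn V) : (fun _ => (1 : ℝ)) ∈ LL V := by
  intro v hv
  have hne : v ≠ 0 := fun h => hV.1 (h ▸ hv)
  obtain ⟨j, hj⟩ := Function.ne_iff.1 hne
  have h2 : (1 : ℝ) * (v j : ℝ) ≤ dt (fun _ => (1 : ℝ)) (cv v) :=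
    Finset.single_le_sum (f := fun i => (1 : ℝ) * (v i : ℝ))
      (fun i _ => mul_nonneg zero_le_one (Nat.cast_nonneg _)) (Finset.mem_univ j)
  have h1 : (1 : ℝ) ≤ v j := by exact_mod_cast Nat.one_le_iff_ne_zero.2 hj
  linarith

theorem KK_sub {V : Finset (ι → ℕ)} (hV : Cn V) : ∃ m : ι → ℝ, KK V ⊆ Set.Icc 0 m := by
  choose m hm hmem using hV.2
  refine ⟨fun i => (m i : ℝ), ?_⟩
  rintro x ⟨hx, w, hw, hlt⟩
  refine ⟨hx, fun j => ?_⟩
  have h := hw _ (hmem j)
  rw [dt_single] at h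
  have h2 : w j * x j ≤ dt w x :=
    Finset.single_le_sum (f := fun i => w i * x i)
      (fun i _ => mul_nonneg (LL_pos hV hw i).le (hx i)) (Finset.mem_univ j)
  have h3 : w j * x j < w j * m j := by linarith
  exact (lt_of_mul_lt_mul_left h3 (LL_pos hV hw j).le).le

theorem KK_fin {V : Finset (ι → ℕ)} (hV : Cn V) : volume (KK V) ≠ ⊤ := by
  obtain ⟨m, hm⟩ := KK_sub hV
  exact ((measure_mono hm).trans_lt isCompact_Icc.measure_lt_top).ne

theorem cube {V : Finset (ι → ℕ)} (hV : Cn V) {θ : ι → ℝ} (hθ : ∀ i, 0 < θ i) {p : ι → ℕ} {t : ℝ}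
    (h : dg V θ p < t) (ht : 0 < t) {x : ι → ℝ} (hx : ∀ i, (p i : ℝ) ≤ x i ∧ x i < p i + 1) :
    x ∈ (t + Fintype.card ι) • KK V := by
  have hr : 0 < t + (Fintype.card ι : ℝ) := by positivity
  obtain ⟨_, ⟨w, hw, rfl⟩, hlt⟩ := exists_lt_of_csInf_lt (s := (fun w => dt w (fun i => (p i : ℝ) + θ i)) '' LL V)
    ⟨_, _, one_mem hV, rfl⟩ h
  rw [Set.mem_smul_set_iff_inv_smul_mem₀ hr.ne']
  have hx0 : ∀ i, 0 ≤ x i := fun i => (Nat.cast_nonneg _).trans (hx i).1
  refine ⟨fun i => mul_nonneg (inv_nonneg.2 hr.le) (hx0 i), fun i => min (w i) 1, min_mem hV hw, ?_⟩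
  have h1 : dt (fun i => min (w i) 1) ((t + (Fintype.card ι : ℝ))⁻¹ • x) =
      (t + (Fintype.card ι : ℝ))⁻¹ * dt (fun i => min (w i) 1) x := by
    unfold dt
    rw [Finset.mul_sum]
    refine Finset.sum_congr rfl fun i _ => ?_
    simp only [Pi.smul_apply, smul_eq_mul]
    ring
  rw [h1, inv_mul_lt_iff₀ hr, mul_one]
  have h2 : dt (fun i => min (w i) 1) x ≤ dt w (fun i => (p i : ℝ) + θ i) + Fintype.card ι := by
    have : (Fintype.card ι : ℝ) = ∑ _i : ι, (1 : ℝ) := by simp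
    rw [this]
    unfold dt
    rw [← Finset.sum_add_distrib]
    refine Finset.sum_le_sum fun i _ => ?_
    have hw0 := LL_pos hV hw i
    have hm0 : 0 ≤ min (w i) 1 := le_min hw0.le zero_le_one
    have hp0 : (0 : ℝ) ≤ p i := Nat.cast_nonneg _
    calc min (w i) 1 * x i ≤ min (w i) 1 * (p i + 1) := by
          exact mul_le_mul_of_nonneg_left (hx i).2.le hm0
      _ = min (w i) 1 * p i + min (w i) 1 := by ring
      _ ≤ w i * p i + 1 := by
          refine add_le_add (mul_le_mul_of_nonneg_right (min_le_left _ _) hp0) (min_le_right _ _)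
      _ ≤ w i * (p i + θ i) + 1 := by
          have := mul_pos hw0 (hθ i)
          linarith [mul_add (w i) (p i : ℝ) (θ i)]
  linarith

/-- the unit cube at `p` -/
def cu (p : ι → ℕ) : Set (ι → ℝ) := Set.univ.pi fun i => Set.Ico (p i : ℝ) (p i + 1)

theorem cu_vol (p : ι → ℕ) : volume (cu p) = 1 := by
  unfold cu
  rw [Real.volume_pi_Ico]
  simp

theorem cu_meas (p : ι → ℕ) : MeasurableSet (cu p) := MeasurableSet.univ_pi fun _ => measurableSet_Ico

theorem cu_disj {p q : ι → ℕ} (h : p ≠ q) : Disjoint (cu p) (cu q) := by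
  rw [Set.disjoint_left]
  intro x hx hy
  apply h
  funext i
  have h1 := hx i (Set.mem_univ i)
  have h2 := hy i (Set.mem_univ i)
  have h3 : (p i : ℝ) < q i + 1 := h1.1.trans_lt h2.2
  have h4 : (q i : ℝ) < p i + 1 := h2.1.trans_lt h1.2
  have h5 : p i < q i + 1 := by exact_mod_cast h3
  have h6 : q i < p i + 1 := by exact_mod_cast h4
  omega

theorem count {V : Finset (ι → ℕ)} (hV : Cn V) {θ : ι → ℝ} (hθ : ∀ i, 0 < θ i) {t : ℝ} (ht : 0 < t)
    (F : Finset (ι → ℕ)) (hF : ∀ p ∈ F, dg V θ p < t) :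
    (F.card : ℝ) ≤ (t + Fintype.card ι) ^ Fintype.card ι * (volume (KK V)).toReal := by
  have hr : 0 < t + (Fintype.card ι : ℝ) := by positivity
  have h1 : volume (⋃ p ∈ F, cu p) = F.card := by
    rw [measure_biUnion_finset (fun p _ q _ hpq => cu_disj hpq) (fun p _ => cu_meas p)]
    simp [cu_vol]
  have h2 : (⋃ p ∈ F, cu p) ⊆ (t + (Fintype.card ι : ℝ)) • KK V := by
    refine Set.iUnion₂_subset fun p hp x hx => ?_
    exact cube hV hθ (hF p hp) ht fun i => hx i (Set.mem_univ i)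
  have h3 := measure_mono (μ := volume) h2
  rw [h1, Measure.addHaar_smul, Module.finrank_fintype_fun_eq_card] at h3
  have h4 := ENNReal.toReal_mono (ENNReal.mul_ne_top ENNReal.ofReal_ne_top (KK_fin hV)) h3
  rw [ENNReal.toReal_natCast, ENNReal.toReal_mul, ENNReal.toReal_ofReal (abs_nonneg _),
    abs_of_nonneg (by positivity)] at h4
  exact h4

theorem inj_aux {k : ℕ} {f g : Option ι →₀ ℕ}
    (hf : f ∈ (Finset.univ : Finset (Option ι)).finsuppAntidiag k)
    (hg : g ∈ (Finset.univ : Finset (Option ι)).finsuppAntidiag k)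
    (h : (fun i => f (some i)) = fun i => g (some i)) : f = g := by
  rw [Finset.mem_finsuppAntidiag] at hf hg
  have h1 := hf.1
  have h2 := hg.1
  rw [Fintype.sum_option] at h1 h2
  have h3 : ∀ i, f (some i) = g (some i) := fun i => congrFun h i
  have h4 : ∑ i, f (some i) = ∑ i, g (some i) := Finset.sum_congr rfl fun i _ => h3 i
  ext o
  cases o with
  | none => omega
  | some i => exact h3 i

theorem lower {V : Finset (ι → ℕ)} {θ : ι → ℝ} {Box : Finset (ι → ℕ)}
    {G : (ι → ℕ) → (ι → ℕ) → (ι → ℕ)}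
    (h1 : ∀ b ∈ Box, ∀ a, dg V θ (G b a) = dg V θ b + ∑ i, (a i : ℝ))
    (h2 : ∀ b ∈ Box, ∀ b' ∈ Box, ∀ a a', G b a = G b' a' → b = b' ∧ a = a') {c : ℝ}
    (hc : ∀ b ∈ Box, dg V θ b ≤ c) (k : ℕ) :
    ∃ F : Finset (ι → ℕ), (∀ p ∈ F, dg V θ p < c + k + 1) ∧
      F.card = Box.card * (Fintype.card ι + k).choose (Fintype.card ι) := by
  classical
  refine ⟨(Box ×ˢ ((Finset.univ : Finset (Option ι)).finsuppAntidiag k)).image
    (fun x => G x.1 (fun i => x.2 (some i))), ?_, ?_⟩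
  · intro p hp
    rw [Finset.mem_image] at hp
    obtain ⟨⟨b, f⟩, hx, rfl⟩ := hp
    rw [Finset.mem_product] at hx
    change dg V θ (G b fun i => f (some i)) < _
    rw [h1 b hx.1]
    have h3 := hx.2
    rw [Finset.mem_finsuppAntidiag] at h3
    have h4 := h3.1
    change ∑ o, f o = k at h4
    rw [Fintype.sum_option] at h4
    have h5 : ∑ i, f (some i) ≤ k := by omega
    have h6 : (∑ i, (f (some i) : ℝ)) ≤ k := by exact_mod_cast h5
    have := hc b hx.1
    linarith
  · rw [Finset.card_image_of_injOn, Finset.card_product, Finset.card_finsuppAntidiag_nat_eq_choose]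
    · congr 1
      rw [Finset.card_univ, Fintype.card_option]
      rw [show Fintype.card ι + 1 + k - 1 = Fintype.card ι + k by omega]
      exact Nat.choose_symm_add.symm
    · rintro ⟨b, f⟩ hx ⟨b', f'⟩ hy hxy
      rw [Finset.mem_coe, Finset.mem_product] at hx hy
      obtain ⟨rfl, hff⟩ := h2 b hx.1 b' hy.1 _ _ hxy
      have h9 : f = f' := inj_aux hx.2 hy.2 hff
      rw [h9]

theorem t : S_VB := by
  intro ι _ _ V θ Box G hV hθ h1 h2
  obtain ⟨c, hc0, hc⟩ : ∃ c : ℝ, 0 ≤ c ∧ ∀ b ∈ Box, dg V θ b ≤ c := by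
    refine ⟨∑ b ∈ Box, |dg V θ b|, Finset.sum_nonneg fun _ _ => abs_nonneg _, fun b hb => ?_⟩
    exact (le_abs_self _).trans
      (Finset.single_le_sum (f := fun b => |dg V θ b|) (fun _ _ => abs_nonneg _) hb)
  set N := Fintype.card ι with hN
  set v := (volume (KK V)).toReal with hv
  have hv0 : 0 ≤ v := ENNReal.toReal_nonneg
  have key : ∀ k : ℕ, 0 < k → (Box.card : ℝ) ≤
      (N.factorial : ℝ) * v * (((c + 1 + N) / k + 1) ^ N) := by
    intro k hk
    obtain ⟨F, hF, hcard⟩ := lower h1 h2 hc k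
    have h3 := count hV hθ (t := c + k + 1) (by positivity) F hF
    rw [hcard] at h3
    push_cast at h3
    rw [← hN, ← hv] at h3
    have h4 : ((k : ℝ) ^ N) / (N.factorial : ℝ) ≤ ((N + k).choose N : ℝ) := by
      have h5 := Nat.pow_le_choose (α := ℝ) N (N + k)
      have h6 : (k : ℝ) ^ N ≤ ((N + k + 1 - N : ℕ) : ℝ) ^ N := by
        have : N + k + 1 - N = k + 1 := by omega
        rw [this]
        push_cast
        gcongr
        linarith
      refine le_trans ?_ h5
      gcongr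
    have hk0 : (0 : ℝ) < k := by exact_mod_cast hk
    have hf0 : (0 : ℝ) < N.factorial := by exact_mod_cast N.factorial_pos
    have h7 : (Box.card : ℝ) * ((k : ℝ) ^ N / N.factorial) ≤ (c + k + 1 + N) ^ N * v :=
      (mul_le_mul_of_nonneg_left h4 (Nat.cast_nonneg _)).trans h3
    have h8 : (c + k + 1 + N) = k * ((c + 1 + N) / k + 1) := by
      field_simp
      ring
    rw [h8, mul_pow] at h7
    have hkN : (0 : ℝ) < (k : ℝ) ^ N := by positivity
    have h9 : (k : ℝ) ^ N * (Box.card : ℝ) ≤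
        (k : ℝ) ^ N * ((N.factorial : ℝ) * v * (((c + 1 + N) / k + 1) ^ N)) := by
      have := mul_le_mul_of_nonneg_left h7 hf0.le
      calc (k : ℝ) ^ N * (Box.card : ℝ) = (N.factorial : ℝ) *
            ((Box.card : ℝ) * ((k : ℝ) ^ N / N.factorial)) := by
            field_simp
        _ ≤ _ := this
        _ = _ := by ring
    exact le_of_mul_le_mul_left h9 hkN
  have hlim : Filter.Tendsto (fun k : ℕ => (N.factorial : ℝ) * v * (((c + 1 + N) / (k : ℝ) + 1) ^ N))
      Filter.atTop (nhds ((N.factorial : ℝ) * v * ((0 + 1) ^ N))) := by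
    refine Filter.Tendsto.const_mul _ (Filter.Tendsto.pow (Filter.Tendsto.add_const _ ?_) _)
    exact tendsto_const_div_atTop_nhds_zero_nat _
  have hfin := ge_of_tendsto hlim (Filter.eventually_atTop.2 ⟨1, fun k hk => key k hk⟩)
  simpa using hfin

end Pool.Agent.Helper76.KH.VB
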